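import Pool.Agent.N343.LT.Final

/-!
# The list edge colouring conjecture for complete tripartite graphs
-/

set_option autoImplicit false

namespace Pool.Agent.Results.MP_2f9829_co.CompleteTripartiteGraphs

open Pool.Agent.N343.LT.Defs

/-- (1) Let `n` be even and `p = 2 n + 1` prime. The list edge colouring conjecture holds for the
complete tripartite graphs `K_{a,n,n}`, `1 ≤ a ≤ n`, more generally for all subgraphs of `K_{n,n,n}`
which need `2 n` colours, and for the covers of `K_{n,n,n}` by finite `p`-groups and their subgraphs
which need `2 n` colours. (2) Let `p = (r - 1) 2 m + 1` be a prime. The same holds, with `p - 2` colours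
in place of `2 n`, for the complete `r`-partite graph with parts of size `2 m` minus a perfect matching
with `m` edges between consecutive parts (in a cyclic order of the parts). (3) Let `p = m k N + 1` be an
odd prime. The same holds, with `p - 2` colours, for the complement of the blow-up of the `k`-th power
of the cycle with `v = k (N + 2)` vertices by independent sets of size `m`, also after modifying it by
any involution `φ` of the vertices of the cycle which moves no vertex by more than `k` steps. -/
theorem result :
    (∀ n : ℕ, Even n → 0 < n → (2 * n + 1).Prime →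
      Holds (2 * n + 1) (2 * n) (EqualTripartite n) ∧
        ∀ a : ℕ, 1 ≤ a → a ≤ n → ListEdgeConjectureFor (Tripartite a n n)) ∧
    (∀ p : ℕ, p.Prime → ∀ r m : ℕ, 2 ≤ r → (r - 1) * (2 * m) = p - 1 →
      Holds p (p - 2) (MultipartiteMinusMatching r m)) ∧
    (∀ p : ℕ, p.Prime → p ≠ 2 → ∀ m k N : ℕ, m * (k * N) = p - 1 →
      ∀ φ : ZMod (k * (N + 2)) → ZMod (k * (N + 2)), (∀ c, φ (φ c) = c) → (∀ c, Near k c (φ c)) →
        Holds p (p - 2) (BlowUp (k * (N + 2)) k m φ)) :=
  ⟨Pool.Agent.N343.LT.Final.tripartite, Pool.Agent.N343.LT.Final.multipartite,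
    Pool.Agent.N343.LT.Final.blowUps⟩

end Pool.Agent.Results.MP_2f9829_co.CompleteTripartiteGraphs
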