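import Pool.Agent.N410.LD.Tame

/-!
# The list edge-colouring conjecture when no large vertex has too many large neighbours

Let `G` have maximum degree `D` and let `k ≤ (D + 1) / 2`. If every vertex of degree more than `k`
has at most `D - k` neighbours of degree more than `k`, and if `3 k ≥ D - 1` or `k` is larger than
the error term of the list chromatic index of the graph formed by the vertices of degree more than
`k`, then the list edge-colouring conjecture holds for `G`. The general form of the statement allows
any set `W` instead of the set of the vertices of degree more than `k`.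
-/

set_option autoImplicit false

namespace Pool.Agent.Results.MP_2f9829_co.LocalDegreeCondition

/-- The edges of `G` can be properly coloured from all lists of at least `k` colours. -/
def EdgeChoosable {V : Type} (G : SimpleGraph V) (k : ℕ) : Prop :=
  ∀ L : G.edgeSet → Finset ℕ, (∀ e, k ≤ (L e).card) →
    ∃ f : G.edgeSet → ℕ, (∀ e, f e ∈ L e) ∧ ∀ e e', G.lineGraph.Adj e e' → f e ≠ f e'

/-- The list edge-colouring conjecture for the graph `G`. -/
def ListEdge {V : Type} (G : SimpleGraph V) : Prop :=
  ∀ k : ℕ, G.lineGraph.Colorable k ↔ EdgeChoosable G k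

/-- The number of neighbours of `v`. -/
noncomputable def deg {V : Type} (G : SimpleGraph V) (v : V) : ℕ := (G.neighborSet v).ncard

/-- The number of neighbours of `v` in `W`. -/
noncomputable def degIn {V : Type} (G : SimpleGraph V) (W : Set V) (v : V) : ℕ :=
  (G.neighborSet v ∩ W).ncard

/-- The subgraph of the edges of `F` in the component of the vertex `v`. -/
def Component {V : Type} (F : SimpleGraph V) (v : V) : SimpleGraph V where
  Adj a b := F.Adj a b ∧ F.Reachable v a
  symm := ⟨fun _ _ h => ⟨h.1.symm, h.2.trans h.1.reachable⟩⟩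
  loopless := ⟨fun _ h => F.loopless.irrefl _ h.1⟩

/-- The average degree of every subgraph of `H` is at most `a`: every set `X` of vertices spans at
most `a * |X|` ordered pairs of adjacent vertices. -/
def MadLe {V : Type} (H : SimpleGraph V) (a : ℝ) : Prop :=
  ∀ X : Finset V, ({e : V × V | e.1 ∈ X ∧ e.2 ∈ X ∧ H.Adj e.1 e.2}.ncard : ℝ) ≤ a * X.card

/-- For every component `C` of `F` there are numbers `d`, `M` such that `C` has maximum degree at
most `d` and at most `M` vertices and one of the following holds:
* `3 d ≤ 2 l + 1`;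
* `d + K (√(d log M) + log M) ≤ l`;
* `M ≥ n₀` and `d + ε √(M log M) ≤ l`;
* `d ≤ l`, and `C` is bipartite or all subgraphs of `C` have average degree at most `a` for a real
  number `a` with `34 a (1 + log l) ≤ l`. -/
def Tame (K ε : ℝ) (n₀ : ℕ) {V : Type} (F : SimpleGraph V) (l : ℕ) : Prop :=
  ∀ v, ∃ d M : ℕ, (∀ w, deg (Component F v) w ≤ d) ∧ {w | F.Reachable v w}.ncard ≤ M ∧
    (3 * d ≤ 2 * l + 1 ∨
      (d : ℝ) + K * (Real.sqrt (d * Real.log M) + Real.log M) ≤ l ∨
      (n₀ ≤ M ∧ (d : ℝ) + ε * Real.sqrt (M * Real.log M) ≤ l) ∨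
      (d ≤ l ∧ ((Component F v).Colorable 2 ∨
        ∃ a : ℝ, MadLe (Component F v) a ∧ 34 * a * (1 + Real.log l) ≤ l)))

/-- There is a constant `K` and for every `ε > 0` there is `n₀` such that the following holds for
every finite simple graph `G` all of whose degrees are at most `D`. Each of the conditions (1) and
(2) implies that `G` is edge-colourable from all lists of `D` colours and, if `D` is the maximum
degree of `G`, that the list edge-colouring conjecture holds for `G`.

(1) There is a set `W` of vertices such that, for the graph `F` of the edges inside `W` and the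
graph `H` of the edges `u v` outside `W` with `deg u + deg v ≥ D + 2`,
* `F` is edge-colourable from all lists of `D` colours or tame for `D`;
* an edge `u w` with `u` outside and `w` in `W` satisfies `dW u + dW w ≤ D` (`dW` = number of
  neighbours in `W`);
* for some `l`, `H` is tame for `l` and `dW u + dW v + l ≤ D` for all edges `u v` of `H`.

(2) There is a number `k ≤ (D + 1) / 2` such that every vertex of degree more than `k` has at most
`D - k` neighbours of degree more than `k`, and `D ≤ 3 k + 1`, or `K (√(D log M) + log M) ≤ k`, or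
`M ≥ n₀` and `ε √(M log M) ≤ k`. Here `M` is any bound for the number of vertices of the components
of the graph `F` induced by the vertices of degree more than `k`. -/
theorem result : ∃ K : ℝ, ∀ ε : ℝ, 0 < ε → ∃ n₀ : ℕ, ∀ (V : Type) [Fintype V]
    (G : SimpleGraph V) (D : ℕ), (∀ v, deg G v ≤ D) →
    ((∃ (W : Set V) (F H : SimpleGraph V) (l : ℕ),
        (∀ u v, F.Adj u v ↔ G.Adj u v ∧ u ∈ W ∧ v ∈ W) ∧
        (∀ u v, H.Adj u v ↔ G.Adj u v ∧ u ∉ W ∧ v ∉ W ∧ D + 2 ≤ deg G u + deg G v) ∧
        (EdgeChoosable F D ∨ Tame K ε n₀ F D) ∧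
        (∀ u w, G.Adj u w → u ∉ W → w ∈ W → degIn G W u + degIn G W w ≤ D) ∧
        Tame K ε n₀ H l ∧ ∀ u v, H.Adj u v → degIn G W u + degIn G W v + l ≤ D) ∨
      (∃ (k M : ℕ) (F : SimpleGraph V), 2 * k ≤ D + 1 ∧
        (∀ u v, F.Adj u v ↔ G.Adj u v ∧ k < deg G u ∧ k < deg G v) ∧
        (∀ v, {w | F.Reachable v w}.ncard ≤ M) ∧
        (∀ v, k < deg G v → degIn G {w | k < deg G w} v + k ≤ D) ∧
        (D ≤ 3 * k + 1 ∨ K * (Real.sqrt (D * Real.log M) + Real.log M) ≤ k ∨
          n₀ ≤ M ∧ ε * Real.sqrt (M * Real.log M) ≤ k))) →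
    EdgeChoosable G D ∧ ((∃ v, deg G v = D) → ListEdge G) := by
  classical
  obtain ⟨K, hK1, hK⟩ := Pool.Agent.N410.LD.ch_tame
  refine ⟨K, fun ε hε => ?_⟩
  obtain ⟨n₀, hn⟩ := hK ε hε
  refine ⟨max n₀ 2, ?_⟩
  intro V _ G D hD
  have hTame : ∀ (F : SimpleGraph V) (l : ℕ), Tame K ε (max n₀ 2) F l → EdgeChoosable F l := by
    intro F l h
    apply hn V F l
    intro v
    obtain ⟨d, M, h1, h2, h3 | h3 | ⟨h3, h4⟩ | h3⟩ := h v
    · exact ⟨d, M, h1, h2, Or.inl h3⟩
    · exact ⟨d, M, h1, h2, Or.inr (Or.inl h3)⟩
    · exact ⟨d, M, h1, h2, Or.inr (Or.inr (Or.inl ⟨(le_max_left _ _).trans h3, h4⟩))⟩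
    · exact ⟨d, M, h1, h2, Or.inr (Or.inr (Or.inr h3))⟩
  have hfin : EdgeChoosable G D →
      EdgeChoosable G D ∧ ((∃ v, deg G v = D) → ListEdge G) := by
    intro h
    refine ⟨h, ?_⟩
    rintro ⟨v, hv⟩ k
    exact Pool.Agent.TH559.LE.lecc G D h v hv k
  -- (1)
  have h1 : ∀ (W : Set V) (F H : SimpleGraph V) (l : ℕ),
      (∀ u v, F.Adj u v ↔ G.Adj u v ∧ u ∈ W ∧ v ∈ W) →
      (∀ u v, H.Adj u v ↔ G.Adj u v ∧ u ∉ W ∧ v ∉ W ∧ D + 2 ≤ deg G u + deg G v) →
      EdgeChoosable F D →
      (∀ u w, G.Adj u w → u ∉ W → w ∈ W → degIn G W u + degIn G W w ≤ D) →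
      EdgeChoosable H l → (∀ u v, H.Adj u v → degIn G W u + degIn G W v + l ≤ D) →
      EdgeChoosable G D := by
    intro W F H l hF hH hcF hcross hcH hl
    exact Pool.Agent.N410.LD.of_parts G F H W D l hD hF hH hcross hl hcF hcH
  -- (2)
  have h2 : ∀ (k M : ℕ) (F : SimpleGraph V), 2 * k ≤ D + 1 →
      (∀ u v, F.Adj u v ↔ G.Adj u v ∧ k < deg G u ∧ k < deg G v) →
      (∀ v, {w | F.Reachable v w}.ncard ≤ M) →
      (∀ v, k < deg G v → degIn G {w | k < deg G w} v + k ≤ D) →
      (D ≤ 3 * k + 1 ∨ K * (Real.sqrt (D * Real.log M) + Real.log M) ≤ k ∨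
        max n₀ 2 ≤ M ∧ ε * Real.sqrt (M * Real.log M) ≤ k) → EdgeChoosable G D := by
    intro k M F h2k hF hM hk hcase
    by_cases hV : IsEmpty V
    · intro L _
      have : IsEmpty G.edgeSet := by
        refine ⟨fun e => ?_⟩
        obtain ⟨e, he⟩ := e
        induction e using Sym2.ind with
        | _ u v => exact hV.false u
      exact ⟨fun e => (this.false e).elim, fun e => (this.false e).elim,
        fun e => (this.false e).elim⟩
    have hM1 : 1 ≤ M := by
      rw [not_isEmpty_iff] at hV
      obtain ⟨v⟩ := hV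
      refine le_trans ?_ (hM v)
      have : 0 < {w | F.Reachable v w}.ncard := by
        rw [Set.ncard_pos (Set.toFinite _)]
        exact ⟨v, SimpleGraph.Reachable.refl _⟩
      omega
    have hkD : k ≤ D := by omega
    have hFd : ∀ v, deg F v ≤ D - k := by
      intro v
      by_cases hv : k < deg G v
      · have h3 := hk v hv
        have h4 : deg F v = degIn G {w | k < deg G w} v := by
          unfold deg degIn
          congr 1
          ext w
          simp only [SimpleGraph.mem_neighborSet, Set.mem_inter_iff, hF, Set.mem_ofPred_eq]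
          tauto
        omega
      · have h4 : deg F v = 0 := by
          unfold deg
          rw [Set.ncard_eq_zero (Set.toFinite _)]
          ext w
          simp only [SimpleGraph.mem_neighborSet, Set.mem_empty_iff_false, iff_false]
          intro h
          exact hv ((hF v w).1 h).2.1
        omega
    have hcF : EdgeChoosable F D := by
      apply hTame
      intro v
      refine ⟨D - k, M, fun w => ?_, hM v, ?_⟩
      · refine le_trans ?_ (hFd w)
        exact Set.ncard_le_ncard (fun x hx => hx.1) (Set.toFinite _)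
      · rcases hcase with h | h | ⟨h, h'⟩
        · left
          omega
        · right; left
          rw [Nat.cast_sub hkD]
          have h3 : Real.sqrt (((D : ℝ) - k) * Real.log M) ≤ Real.sqrt (D * Real.log M) := by
            apply Real.sqrt_le_sqrt
            apply mul_le_mul_of_nonneg_right _ (Real.log_natCast_nonneg _)
            have : (0 : ℝ) ≤ k := Nat.cast_nonneg _
            linarith
          have h4 : K * (Real.sqrt (((D : ℝ) - k) * Real.log M) + Real.log M) ≤
              K * (Real.sqrt (D * Real.log M) + Real.log M) := by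
            apply mul_le_mul_of_nonneg_left _ (by linarith)
            linarith
          linarith
        · right; right; left
          refine ⟨h, ?_⟩
          rw [Nat.cast_sub hkD]
          linarith
    let H : SimpleGraph V :=
      { Adj := fun a b => G.Adj a b ∧ a ∉ {w | k < deg G w} ∧ b ∉ {w | k < deg G w} ∧
          D + 2 ≤ deg G a + deg G b
        symm := ⟨fun a b h => ⟨h.1.symm, h.2.2.1, h.2.1, h.2.2.2.trans (Nat.add_comm _ _).le⟩⟩
        loopless := ⟨fun a h => G.loopless.irrefl a h.1⟩ }
    have hno : ∀ u v, ¬ H.Adj u v := by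
      rintro u v ⟨-, h3, h4, h5⟩
      simp only [Set.mem_ofPred_eq, not_lt] at h3 h4
      omega
    refine h1 {w | k < deg G w} F H 0 hF (fun _ _ => Iff.rfl) hcF ?_ ?_ ?_
    · intro u w huw hu hw
      have h3 := hk w hw
      have h4 : degIn G {w | k < deg G w} u ≤ deg G u :=
        Set.ncard_le_ncard Set.inter_subset_left (Set.toFinite _)
      simp only [Set.mem_ofPred_eq, not_lt] at hu
      omega
    · intro L _
      have : IsEmpty H.edgeSet := by
        refine ⟨fun e => ?_⟩
        obtain ⟨e, he⟩ := e
        induction e using Sym2.ind with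
        | _ u v => exact hno u v he
      exact ⟨fun e => (this.false e).elim, fun e => (this.false e).elim,
        fun e => (this.false e).elim⟩
    · intro u v huv
      exact absurd huv (hno u v)
  rintro (⟨W, F, H, l, hF, hH, hcF, hcross, hcH, hl⟩ | ⟨k, M, F, h2k, hF, hM, hk, hcase⟩)
  · refine hfin (h1 W F H l hF hH ?_ hcross (hTame H l hcH) hl)
    rcases hcF with h | h
    · exact h
    · exact hTame F D h
  · exact hfin (h2 k M F h2k hF hM hk hcase)

end Pool.Agent.Results.MP_2f9829_co.LocalDegreeCondition
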