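import Pool.Agent.N410.LD.LocalU

/-!
# Local list sizes and the list edge-colouring conjecture

Let `G` be a graph with all degrees at most `D` whose components have at most `M` vertices and let
`s = K (1 + log D) √(D log M)`. The edges of `G` can be properly coloured from all lists such that
the list of every edge `u v` has at least `max (deg u) (deg v) + s` colours. It follows that the
list edge-colouring conjecture holds for `G` if, for some `k`, the vertices of degree at most `k`
have at most `D - k - s` neighbours of degree more than `k`, and the vertices of degree more than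
`k` have at most `D - s` and at most `k + s` such neighbours.
-/

set_option autoImplicit false

namespace Pool.Agent.Results.MP_2f9829_co.LocalListSizes

/-- The edges of `G` can be properly coloured from the lists `L`. -/
def ColorableFrom {V : Type} (G : SimpleGraph V) (L : G.edgeSet → Finset ℕ) : Prop :=
  ∃ f : G.edgeSet → ℕ, (∀ e, f e ∈ L e) ∧ ∀ e e', G.lineGraph.Adj e e' → f e ≠ f e'

/-- The edges of `G` can be properly coloured from all lists of at least `k` colours. -/
def EdgeChoosable {V : Type} (G : SimpleGraph V) (k : ℕ) : Prop :=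
  ∀ L : G.edgeSet → Finset ℕ, (∀ e, k ≤ (L e).card) → ColorableFrom G L

/-- The list edge-colouring conjecture for the graph `G`. -/
def ListEdge {V : Type} (G : SimpleGraph V) : Prop :=
  ∀ k : ℕ, G.lineGraph.Colorable k ↔ EdgeChoosable G k

/-- The number of neighbours of `v`. -/
noncomputable def deg {V : Type} (G : SimpleGraph V) (v : V) : ℕ := (G.neighborSet v).ncard

/-- The number of neighbours of `v` in `W`. -/
noncomputable def degIn {V : Type} (G : SimpleGraph V) (W : Set V) (v : V) : ℕ :=
  (G.neighborSet v ∩ W).ncard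

/-- The error term `K (1 + log D) √(D log M)`. -/
noncomputable def slack (K : ℝ) (M D : ℕ) : ℝ :=
  K * (1 + Real.log D) * Real.sqrt (D * Real.log M)

/-- There is a constant `K` such that the following holds for every finite simple graph `G` all of
whose degrees are at most `D` and all of whose components have at most `M` vertices. Let
`s = K (1 + log D) √(D log M)`.

(1) The edges of `G` can be properly coloured from all lists such that the list of every edge has at
least `deg v + s` colours for each of its ends `v`, and also, for every `θ > 0`, from all lists such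
that the list of every edge has at least `(1 + θ) deg v + K (1 + log (1 / θ)) ^ 2 (log M) / θ`
colours for each of its ends `v`.

Moreover, each of the conditions (2) and (3) implies that `G` is edge-colourable from all lists of
`D` colours and, if `D` is the maximum degree of `G`, that the list edge-colouring conjecture holds
for `G`.

(2) There is a set `W` of vertices such that, for the graph `F` of the edges inside `W` and the
graph `H` of the edges `u v` outside `W` with `deg u + deg v ≥ D + 2`,
* `F` is edge-colourable from all lists of `D` colours, or all its degrees are at most `D - s`;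
* an edge `u w` with `u` outside and `w` in `W` satisfies `dW u + dW w ≤ D` (`dW` = number of
  neighbours in `W`);
* all edges `u v` of `H` satisfy `dW u + dW v + degH u + s ≤ D` (in both orders).

(3) There is a number `k` such that every vertex of degree at most `k` has at most `D - k - s`
neighbours of degree more than `k`, and every vertex of degree more than `k` has at most `D - s` and
at most `k + s` neighbours of degree more than `k`. -/
theorem result : ∃ K : ℝ, ∀ (V : Type) [Fintype V] (G : SimpleGraph V) (D M : ℕ),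
    (∀ v, deg G v ≤ D) → (∀ v, {w | G.Reachable v w}.ncard ≤ M) →
    (∀ L : G.edgeSet → Finset ℕ,
      ((∀ (e : G.edgeSet) (v : V), v ∈ e.1 → (deg G v : ℝ) + slack K M D ≤ (L e).card) ∨
        (∃ θ : ℝ, 0 < θ ∧ ∀ (e : G.edgeSet) (v : V), v ∈ e.1 →
          (1 + θ) * deg G v + K * (1 + Real.log (1 / θ)) ^ 2 * Real.log M / θ ≤ (L e).card)) →
      ColorableFrom G L) ∧
    ((∃ (W : Set V) (F H : SimpleGraph V),
        (∀ u v, F.Adj u v ↔ G.Adj u v ∧ u ∈ W ∧ v ∈ W) ∧
        (∀ u v, H.Adj u v ↔ G.Adj u v ∧ u ∉ W ∧ v ∉ W ∧ D + 2 ≤ deg G u + deg G v) ∧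
        (EdgeChoosable F D ∨ ∀ v, (deg F v : ℝ) + slack K M D ≤ D) ∧
        (∀ u w, G.Adj u w → u ∉ W → w ∈ W → degIn G W u + degIn G W w ≤ D) ∧
        ∀ u v, H.Adj u v →
          (degIn G W u : ℝ) + degIn G W v + deg H u + slack K M D ≤ D) ∨
      (∃ k : ℕ,
        (∀ v, deg G v ≤ k → (degIn G {w | k < deg G w} v : ℝ) + k + slack K M D ≤ D) ∧
        (∀ v, k < deg G v →
          (degIn G {w | k < deg G w} v : ℝ) + slack K M D ≤ D ∧
          (degIn G {w | k < deg G w} v : ℝ) ≤ k + slack K M D)) →
      EdgeChoosable G D ∧ ((∃ v, deg G v = D) → ListEdge G)) := by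
  classical
  obtain ⟨K₁, hK₁, hloc₁⟩ := Pool.Agent.N410.LD.local_sqrt
  obtain ⟨K₂, hK₂, hloc₂⟩ := Pool.Agent.N410.LD.local_theta
  refine ⟨max K₁ K₂, ?_⟩
  intro V _ G D M hD hM
  have hs : ∀ D' : ℕ, Pool.Agent.N410.LD.slk K₁ M D' ≤ slack (max K₁ K₂) M D' := by
    intro D'
    unfold slack Pool.Agent.N410.LD.slk
    have h1 : 0 ≤ Real.log D' := Real.log_natCast_nonneg _
    have h2 : 0 ≤ Real.sqrt (D' * Real.log M) := Real.sqrt_nonneg _
    apply mul_le_mul_of_nonneg_right _ h2
    exact mul_le_mul_of_nonneg_right (le_max_left _ _) (by linarith)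
  have hch : ∀ (F : SimpleGraph V) (l : ℕ),
      EdgeChoosable F l ↔ Pool.Agent.TH559.LE.Choosable F l := fun _ _ => Iff.rfl
  have hdeg : ∀ (F : SimpleGraph V) (v : V), deg F v = Pool.Agent.TH559.LE.dg F v :=
    fun _ _ => rfl
  have hreach : ∀ F : SimpleGraph V, F ≤ G → ∀ v, {w | F.Reachable v w}.ncard ≤ M := by
    intro F hF v
    refine le_trans (Set.ncard_le_ncard ?_ (Set.toFinite _)) (hM v)
    intro w hw
    exact SimpleGraph.Reachable.mono hF hw
  -- subgraphs, lists on pairs
  have hsub : ∀ (F : SimpleGraph V) (L : Sym2 V → Finset ℕ), F ≤ G →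
      (∀ u v, F.Adj u v → (deg F u : ℝ) + slack (max K₁ K₂) M D ≤ (L s(u, v)).card) →
      ∃ c, Pool.Agent.TH559.LE.Ok F L c := by
    intro F L hF hL
    apply hloc₁ V F M D L (fun v => (Pool.Agent.TH559.LE.dg_mono hF v).trans (hD v)) (hreach F hF)
    intro u v huv
    have h1 := hL u v huv
    have h2 := hs D
    rw [← hdeg]
    linarith
  -- (1)
  have hconv : ∀ L : G.edgeSet → Finset ℕ,
      (∃ c, Pool.Agent.TH559.LE.Ok G
        (fun z => if h : z ∈ G.edgeSet then L ⟨z, h⟩ else ∅) c) → ColorableFrom G L := by
    rintro L ⟨c, hc1, hc2⟩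
    refine ⟨fun e => c e.1, ?_, ?_⟩
    · rintro ⟨e, he⟩
      induction e using Sym2.ind with
      | _ u v =>
        have := hc1 u v ((SimpleGraph.mem_edgeSet G).1 he)
        simp only at this
        rwa [dif_pos he] at this
    · intro e e' h
      obtain ⟨u, v, w, h1, h2, hne, he, he'⟩ := (Pool.Agent.TH559.LE.lg_iff G _ _).1 h
      show c e.1 ≠ c e'.1
      rw [he, he']
      exact hc2 u v w h1 h2 hne
  have h1 : ∀ L : G.edgeSet → Finset ℕ,
      ((∀ (e : G.edgeSet) (v : V), v ∈ e.1 →
          (deg G v : ℝ) + slack (max K₁ K₂) M D ≤ (L e).card) ∨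
        (∃ θ : ℝ, 0 < θ ∧ ∀ (e : G.edgeSet) (v : V), v ∈ e.1 →
          (1 + θ) * deg G v + max K₁ K₂ * (1 + Real.log (1 / θ)) ^ 2 * Real.log M / θ ≤
            (L e).card)) → ColorableFrom G L := by
    rintro L (hL | ⟨θ, hθ, hL⟩)
    · apply hconv
      apply hsub G _ le_rfl
      intro u v huv
      have huv' := (SimpleGraph.mem_edgeSet G).2 huv
      rw [dif_pos huv']
      exact hL ⟨s(u, v), huv'⟩ u (Sym2.mem_mk_left _ _)
    · apply hconv
      apply hloc₂ V G M θ _ hθ hM
      intro u v huv
      have huv' := (SimpleGraph.mem_edgeSet G).2 huv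
      rw [dif_pos huv', ← hdeg]
      have h3 := hL ⟨s(u, v), huv'⟩ u (Sym2.mem_mk_left _ _)
      have h4 : K₂ * (1 + Real.log (1 / θ)) ^ 2 * Real.log M / θ ≤
          max K₁ K₂ * (1 + Real.log (1 / θ)) ^ 2 * Real.log M / θ := by
        have h5 : 0 ≤ Real.log M := Real.log_natCast_nonneg _
        apply div_le_div_of_nonneg_right _ hθ.le
        apply mul_le_mul_of_nonneg_right _ h5
        exact mul_le_mul_of_nonneg_right (le_max_right _ _) (sq_nonneg _)
      linarith
  refine ⟨h1, ?_⟩
  have hfin : EdgeChoosable G D →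
      EdgeChoosable G D ∧ ((∃ v, deg G v = D) → ListEdge G) := by
    intro h
    refine ⟨h, ?_⟩
    rintro ⟨v, hv⟩ k
    exact Pool.Agent.TH559.LE.lecc G D h v hv k
  -- graphs with degrees at most `D - s`
  have hlow : ∀ F : SimpleGraph V, F ≤ G →
      (∀ v, (deg F v : ℝ) + slack (max K₁ K₂) M D ≤ D) → EdgeChoosable F D := by
    intro F hFG hF
    rw [hch, Pool.Agent.TH559.LE.choosable_iff]
    intro L hL
    apply hsub F L hFG
    intro u v huv
    have h3 : (D : ℝ) ≤ (L s(u, v)).card := by exact_mod_cast hL u v huv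
    exact (hF u).trans h3
  -- (2)
  have h2 : ∀ (W : Set V) (F H : SimpleGraph V),
      (∀ u v, F.Adj u v ↔ G.Adj u v ∧ u ∈ W ∧ v ∈ W) →
      (∀ u v, H.Adj u v ↔ G.Adj u v ∧ u ∉ W ∧ v ∉ W ∧ D + 2 ≤ deg G u + deg G v) →
      (EdgeChoosable F D ∨ ∀ v, (deg F v : ℝ) + slack (max K₁ K₂) M D ≤ D) →
      (∀ u w, G.Adj u w → u ∉ W → w ∈ W → degIn G W u + degIn G W w ≤ D) →
      (∀ u v, H.Adj u v →
        (degIn G W u : ℝ) + degIn G W v + deg H u + slack (max K₁ K₂) M D ≤ D) →
      EdgeChoosable G D := by
    intro W F H hF hH hcF hcross hl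
    have hFG : F ≤ G := fun a b h => ((hF a b).1 h).1
    have hHG : H ≤ G := fun a b h => ((hH a b).1 h).1
    have hcF' : EdgeChoosable F D := by
      rcases hcF with h | h
      · exact h
      · exact hlow F hFG h
    refine Pool.Agent.N410.LD.of_parts_local G F H W D hD hF hH hcross hcF' ?_
    intro L' hL'
    apply hsub H L' hHG
    intro u v huv
    have h3 := hl u v huv
    have h4 : (D : ℝ) ≤ (L' s(u, v)).card + degIn G W u + degIn G W v := by
      exact_mod_cast hL' u v huv
    linarith
  rintro (⟨W, F, H, hF, hH, hcF, hcross, hl⟩ | ⟨k, hk1, hk2⟩)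
  · exact hfin (h2 W F H hF hH hcF hcross hl)
  -- (3)
  apply hfin
  set W : Set V := {w | k < deg G w} with hW
  let F : SimpleGraph V :=
    { Adj := fun a b => G.Adj a b ∧ a ∈ W ∧ b ∈ W
      symm := ⟨fun a b h => ⟨h.1.symm, h.2.2, h.2.1⟩⟩
      loopless := ⟨fun a h => G.loopless.irrefl a h.1⟩ }
  let H : SimpleGraph V :=
    { Adj := fun a b => G.Adj a b ∧ a ∉ W ∧ b ∉ W ∧ D + 2 ≤ deg G a + deg G b
      symm := ⟨fun a b h => ⟨h.1.symm, h.2.2.1, h.2.1, h.2.2.2.trans (Nat.add_comm _ _).le⟩⟩
      loopless := ⟨fun a h => G.loopless.irrefl a h.1⟩ }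
  have hmem : ∀ v, v ∈ W ↔ k < deg G v := fun v => Iff.rfl
  by_cases hWne : W.Nonempty
  · refine h2 W F H (fun _ _ => Iff.rfl) (fun _ _ => Iff.rfl) ?_ ?_ ?_
    · right
      intro v
      by_cases hv : k < deg G v
      · have h3 := (hk2 v hv).1
        have h4 : deg F v = degIn G W v := by
          unfold deg degIn
          congr 1
          ext w
          show (G.Adj v w ∧ v ∈ W ∧ w ∈ W) ↔ _
          simp only [SimpleGraph.mem_neighborSet, Set.mem_inter_iff, hmem]
          tauto
        rw [h4]
        exact h3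
      · obtain ⟨w, hw⟩ := hWne
        have h3 := (hk2 w hw).1
        have h4 : deg F v = 0 := by
          unfold deg
          rw [Set.ncard_eq_zero (Set.toFinite _)]
          ext w
          simp only [SimpleGraph.mem_neighborSet, Set.mem_empty_iff_false, iff_false]
          intro h
          exact hv h.2.1
        rw [h4]
        have h5 : (0 : ℝ) ≤ degIn G W w := Nat.cast_nonneg _
        push_cast
        linarith
    · intro u w huw hu hw
      have h3 := hk1 u (by rw [hmem] at hu; omega)
      have h4 := (hk2 w hw).2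
      have h5 : ((degIn G W u + degIn G W w : ℕ) : ℝ) ≤ (D : ℕ) := by
        push_cast
        linarith
      exact_mod_cast h5
    · intro u v huv
      have hu : u ∉ W := huv.2.1
      have hv : v ∉ W := huv.2.2.1
      have h3 := hk1 v (by rw [hmem] at hv; omega)
      have h4 : deg H u + degIn G W u ≤ k := by
        have h5 : deg H u ≤ (G.neighborSet u \ W).ncard := by
          apply Set.ncard_le_ncard _ (Set.toFinite _)
          intro x hx
          exact ⟨hx.1, hx.2.2.1⟩
        have h6 : (G.neighborSet u \ W).ncard + (G.neighborSet u ∩ W).ncard = deg G u := by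
          rw [add_comm]
          exact Set.ncard_inter_add_ncard_sdiff_eq_ncard _ _ (Set.toFinite _)
        have h7 : deg G u ≤ k := by rw [hmem] at hu; omega
        unfold degIn
        omega
      have h5 : (deg H u : ℝ) + degIn G W u ≤ k := by exact_mod_cast h4
      linarith
  · -- all degrees are at most `k`
    have hall : ∀ v, deg G v ≤ k := by
      intro v
      by_contra hcon
      exact hWne ⟨v, (hmem v).2 (not_le.1 hcon)⟩
    apply hlow G le_rfl
    intro v
    have h3 := hk1 v (hall v)
    have h4 : (0 : ℝ) ≤ degIn G W v := Nat.cast_nonneg _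
    have h5 : (deg G v : ℝ) ≤ k := by exact_mod_cast hall v
    linarith

end Pool.Agent.Results.MP_2f9829_co.LocalListSizes
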