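import Pool.Agent.N347.TC.TwinMain

set_option autoImplicit false

/-! List edge colourings from lists that depend only on the twin classes of the two ends. -/

namespace Pool.Agent.Results.MP_2f9829_co.TwinLists

/-- The class of twins of `x`: the vertices with the same neighbours as `x`. -/
def Twins {W : Type} (G : SimpleGraph W) (x : W) : Set W := {y | ∀ z, G.Adj x z ↔ G.Adj y z}

/-- Let `G` be a finite graph with all degrees at most `D`. Suppose that for every vertex `x` the
number `n` of the twins of `x` (itself included) is even or `deg x ≤ (1 - 1/n) D`. Then `G` can be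
edge coloured from all lists of at least `D` colours such that the lists of `xy` and `x'y'` are
equal if `x, x'` are twins and `y, y'` are twins. -/
theorem result {W : Type} [Finite W] (G : SimpleGraph W) (D : ℕ)
    (hD : ∀ x, (G.neighborSet x).ncard ≤ D)
    (hcl : ∀ x, Even (Twins G x).ncard ∨
      (G.neighborSet x).ncard * (Twins G x).ncard + D ≤ D * (Twins G x).ncard)
    (L : Sym2 W → Finset ℕ) (hLi : ∀ x y x' y', G.Adj x y → x' ∈ Twins G x → y' ∈ Twins G y →
      L s(x', y') = L s(x, y)) (hL : ∀ x y, G.Adj x y → D ≤ (L s(x, y)).card) :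
    ∃ c : Sym2 W → ℕ, (∀ x y, G.Adj x y → c s(x, y) ∈ L s(x, y)) ∧
      ∀ x y z, G.Adj x y → G.Adj x z → y ≠ z → c s(x, y) ≠ c s(x, z) :=
  Pool.Agent.N347.TC.twin_lists G D hD hcl L hLi hL

end Pool.Agent.Results.MP_2f9829_co.TwinLists
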